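import Mathlib

/-!
# The law of the root value of the noisy min-max game

The tree is encoded by lists: the list `v` is the vertex reached from the root by following
`v`, its children are `v ++ [a]`. A game of depth `k` has a sign for every edge `(v, a)` (from
`v` to `v ++ [a]`) and a boundary value for every list of length `k`.
-/

set_option autoImplicit false

namespace Pool.Agent.Lib.MP_023911_pr

open MeasureTheory ProbabilityTheory

/-- The index set of the noise of a game of depth `k`. -/
abbrev Idx (d k : ℕ) : Type := (List (Fin d) × Fin d) ⊕ {v : List (Fin d) // v.length = k}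

/-- The noise of the subgame at the child `a` of the root. -/
def consIdx {d k : ℕ} (a : Fin d) : Idx d k → Idx d (k + 1)
  | Sum.inl e => Sum.inl (a :: e.1, e.2)
  | Sum.inr w => Sum.inr ⟨a :: w.1, by simp [w.2]⟩

/-- The noise at the child `a`, together with the sign of the edge from the root to `a`. -/
def blockIdx {d k : ℕ} (q : Fin d × Option (Idx d k)) : Idx d (k + 1) :=
  match q.2 with
  | none => Sum.inl ([], q.1)
  | some i => consIdx q.1 i

theorem blockIdx_injective {d k : ℕ} : Function.Injective (blockIdx (d := d) (k := k)) := by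
  rintro ⟨a, o⟩ ⟨b, o'⟩ h
  rcases o with _ | (⟨w, x⟩ | ⟨w, hw⟩) <;> rcases o' with _ | (⟨w', x'⟩ | ⟨w', hw'⟩) <;>
    simp_all [blockIdx, consIdx]

/-- The root value of a game of depth `k`. -/
noncomputable def val (d : ℕ) : (k : ℕ) → (Idx d k → ℝ) → ℝ
  | 0, y => y (Sum.inr ⟨[], rfl⟩)
  | k + 1, y =>
    if Even (k + 1) then
      ⨆ a : Fin d, (y (Sum.inl ([], a)) + val d k fun i => y (consIdx a i))
    else
      ⨅ a : Fin d, (y (Sum.inl ([], a)) + val d k fun i => y (consIdx a i))

theorem measurable_val (d k : ℕ) : Measurable (val d k) := by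
  induction k with
  | zero => exact measurable_pi_apply _
  | succ k ih =>
    have h : ∀ a : Fin d, Measurable fun y : Idx d (k + 1) → ℝ =>
        y (Sum.inl ([], a)) + val d k fun i => y (consIdx a i) := fun a =>
      (measurable_pi_apply _).add (ih.comp (measurable_pi_lambda _ fun i => measurable_pi_apply _))
    by_cases hev : Even (k + 1)
    · have e : val d (k + 1) = fun y =>
          ⨆ a : Fin d, (y (Sum.inl ([], a)) + val d k fun i => y (consIdx a i)) := by
        funext y
        simp only [val, hev, if_true]
      rw [e]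
      exact Measurable.iSup h
    · have e : val d (k + 1) = fun y =>
          ⨅ a : Fin d, (y (Sum.inl ([], a)) + val d k fun i => y (consIdx a i)) := by
        funext y
        simp only [val, hev, if_false]
      rw [e]
      exact Measurable.iInf h

variable {Ω : Type*} [MeasurableSpace Ω] {P : Measure Ω} [IsProbabilityMeasure P]

/-- Disjoint blocks of an independent family are independent. -/
theorem iIndepFun_block {ι κ J : Type*} {f : ι → Ω → ℝ} (hf : ∀ i, Measurable (f i))
    (h : iIndepFun f P) {g : κ × J → ι} (hg : Function.Injective g) :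
    iIndepFun (fun a ω (j : J) => f (g (a, j)) ω) P := by
  have hp : ∀ i, IsProbabilityMeasure (P.map (f i)) := fun i =>
    Measure.isProbabilityMeasure_map (hf i).aemeasurable
  rw [iIndepFun_iff_map_fun_eq_infinitePi_map (fun a => measurable_pi_lambda _ fun j => hf _)]
  have h1 : iIndepFun (fun q : κ × J => f (g q)) P := h.precomp hg
  have h2 := h1.map_fun_eq_infinitePi_map (fun q => hf _)
  have h3 : ∀ a : κ, P.map (fun ω (j : J) => f (g (a, j)) ω) =
      Measure.infinitePi fun j => P.map (f (g (a, j))) := by
    intro a
    have hinj : Function.Injective fun j : J => g (a, j) := fun x y hxy => by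
      have := hg hxy
      simpa using this
    exact (h.precomp hinj).map_fun_eq_infinitePi_map (fun q => hf _)
  have h4 : (fun ω (a : κ) (j : J) => f (g (a, j)) ω) =
      (MeasurableEquiv.curry κ J ℝ) ∘ fun ω (q : κ × J) => f (g q) ω := by
    funext ω a j
    rfl
  rw [h4, ← Measure.map_map (MeasurableEquiv.curry κ J ℝ).measurable
    (measurable_pi_lambda _ fun q => hf _), h2]
  have h5 := Measure.infinitePi_map_curry (fun (a : κ) (j : J) => P.map (f (g (a, j))))
  rw [h5]
  congr 1
  funext a
  exact (h3 a).symm

/-- One member of an independent family is independent of the others. -/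
theorem indepFun_none {J : Type*} {f : Option J → Ω → ℝ} (hf : ∀ i, Measurable (f i))
    (h : iIndepFun f P) : IndepFun (f none) (fun ω (j : J) => f (some j) ω) P := by
  classical
  apply IndepFun.indepFun_process (hf none) (fun j => hf _)
  intro I
  have hdisj : Disjoint ({none} : Finset (Option J)) (I.map Function.Embedding.some) := by
    simp
  have h1 := h.indepFun_finset {none} (I.map Function.Embedding.some) hdisj hf
  have m1 : Measurable fun y : (({none} : Finset (Option J)) → ℝ) => y ⟨none, by simp⟩ :=
    measurable_pi_apply (⟨none, by simp⟩ : ({none} : Finset (Option J)))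
  have m2 : Measurable fun (y : (I.map Function.Embedding.some) → ℝ) (j : I) =>
      y ⟨some j.1, by simp⟩ :=
    measurable_pi_lambda _ fun j => measurable_pi_apply _
  exact h1.comp m1 m2

/-- The uniform law on `{1, -1}`. -/
noncomputable def signLaw : Measure ℝ :=
  (1 / 2 : ENNReal) • Measure.dirac 1 + (1 / 2 : ENNReal) • Measure.dirac (-1)

/-- Adding an independent random sign. -/
theorem cdf_add_sign {s W : Ω → ℝ} (hs : Measurable s) (hW : Measurable W)
    (hsl : P.map s = signLaw) (hind : IndepFun s W P) (x : ℝ) :
    P.real {ω | s ω + W ω ≤ x} =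
      (P.real {ω | W ω ≤ x - 1} + P.real {ω | W ω ≤ x + 1}) / 2 := by
  have h1 : P {ω | s ω + W ω ≤ x} =
      (1 / 2 : ENNReal) * P {ω | W ω ≤ x - 1} + (1 / 2 : ENNReal) * P {ω | W ω ≤ x + 1} := by
    have hm : MeasurableSet {q : ℝ × ℝ | q.1 + q.2 ≤ x} :=
      measurableSet_le (measurable_fst.add measurable_snd) measurable_const
    have e1 : P {ω | s ω + W ω ≤ x} = P.map (fun ω => (s ω, W ω)) {q | q.1 + q.2 ≤ x} := by
      rw [Measure.map_apply (hs.prodMk hW) hm]
      rfl
    have e2 : P.map (fun ω => (s ω, W ω)) = (P.map s).prod (P.map W) :=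
      (indepFun_iff_map_prod_eq_prod_map_map hs.aemeasurable hW.aemeasurable).1 hind
    have : IsProbabilityMeasure (P.map W) := Measure.isProbabilityMeasure_map hW.aemeasurable
    rw [e1, e2, Measure.prod_apply hm, hsl]
    unfold signLaw
    rw [lintegral_add_measure, lintegral_smul_measure, lintegral_smul_measure,
      lintegral_dirac, lintegral_dirac, smul_eq_mul, smul_eq_mul]
    have e3 : (P.map W) (Prod.mk (1 : ℝ) ⁻¹' {q : ℝ × ℝ | q.1 + q.2 ≤ x}) =
        P {ω | W ω ≤ x - 1} := by
      rw [Measure.map_apply hW (measurable_prodMk_left hm)]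
      congr 1
      ext ω
      simp only [Set.mem_preimage, Set.mem_ofPred_eq]
      constructor <;> intro h <;> linarith
    have e4 : (P.map W) (Prod.mk (-1 : ℝ) ⁻¹' {q : ℝ × ℝ | q.1 + q.2 ≤ x}) =
        P {ω | W ω ≤ x + 1} := by
      rw [Measure.map_apply hW (measurable_prodMk_left hm)]
      congr 1
      ext ω
      simp only [Set.mem_preimage, Set.mem_ofPred_eq]
      constructor <;> intro h <;> linarith
    rw [e3, e4]
  unfold Measure.real
  rw [h1, ENNReal.toReal_add (by finiteness) (by finiteness), ENNReal.toReal_mul,
    ENNReal.toReal_mul]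
  simp only [one_div, ENNReal.toReal_inv, ENNReal.toReal_ofNat]
  ring

/-- The distribution function of the boundary values. -/
noncomputable def G (d : ℕ) (p : ℝ) : ℕ → ℝ → ℝ
  | 0, x => if x < 0 then 0 else if x < 2 then p else 1
  | k + 1, x =>
    if Even (k + 1) then ((G d p k (x - 1) + G d p k (x + 1)) / 2) ^ d
    else 1 - (1 - (G d p k (x - 1) + G d p k (x + 1)) / 2) ^ d

theorem iSup_le_iff' {d : ℕ} (hd : 1 ≤ d) (f : Fin d → ℝ) (x : ℝ) :
    ⨆ a, f a ≤ x ↔ ∀ a, f a ≤ x := by
  have : Nonempty (Fin d) := ⟨⟨0, hd⟩⟩
  exact ciSup_le_iff (Set.finite_range f).bddAbove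

theorem lt_iInf_iff' {d : ℕ} (hd : 1 ≤ d) (f : Fin d → ℝ) (x : ℝ) :
    x < ⨅ a, f a ↔ ∀ a, x < f a := by
  have : Nonempty (Fin d) := ⟨⟨0, hd⟩⟩
  constructor
  · intro h a
    exact h.trans_le (ciInf_le (Set.finite_range f).bddBelow a)
  · intro h
    obtain ⟨a, ha⟩ := exists_eq_ciInf_of_finite (f := f)
    rw [← ha]
    exact h a

/-- The distribution function of the root value. -/
theorem cdf_val {d : ℕ} (hd : 1 ≤ d) (p : ℝ) (k : ℕ) (z : Idx d k → Ω → ℝ)
    (hz : ∀ i, Measurable (z i)) (hind : iIndepFun z P)
    (hsign : ∀ e, P.map (z (Sum.inl e)) = signLaw)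
    (hbdry : ∀ v x, P.real {ω | z (Sum.inr v) ω ≤ x} = G d p 0 x) (x : ℝ) :
    P.real {ω | val d k (fun i => z i ω) ≤ x} = G d p k x := by
  induction k generalizing x with
  | zero => exact hbdry _ _
  | succ k ih =>
    -- the subgames
    set Y : Fin d → Ω → ℝ := fun a ω =>
      z (Sum.inl ([], a)) ω + val d k (fun i => z (consIdx a i) ω) with hY
    have hinj : ∀ a : Fin d, Function.Injective (consIdx (d := d) (k := k) a) := by
      intro a i j hij
      have := @blockIdx_injective d k (a, some i) (a, some j) hij
      simpa using this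
    have hcdf : ∀ (a : Fin d) (x : ℝ), P.real {ω | Y a ω ≤ x} =
        (G d p k (x - 1) + G d p k (x + 1)) / 2 := by
      intro a x
      have hzs : ∀ i, Measurable (z (consIdx a i)) := fun i => hz _
      have h1 : ∀ x, P.real {ω | val d k (fun i => z (consIdx a i) ω) ≤ x} = G d p k x := by
        intro x
        apply ih (fun i => z (consIdx a i)) hzs (hind.precomp (hinj a))
        · intro e
          exact hsign _
        · intro v x
          exact hbdry _ _
      have hblock : iIndepFun (fun o : Option (Idx d k) => z (blockIdx (a, o))) P :=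
        hind.precomp (fun o o' h => by simpa using blockIdx_injective h)
      have h2 := indepFun_none (fun o => hz _) hblock
      have h3 := h2.comp (φ := id) (ψ := val d k) measurable_id (measurable_val d k)
      have h4 := cdf_add_sign (hz (Sum.inl ([], a)))
        ((measurable_val d k).comp (measurable_pi_lambda _ hzs)) (hsign _) h3 x
      rw [← h1, ← h1]
      exact h4
    have hYm : ∀ a, Measurable (Y a) := fun a =>
      (hz _).add ((measurable_val d k).comp (measurable_pi_lambda _ fun i => hz _))
    have hYind : iIndepFun Y P := by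
      have h1 := iIndepFun_block hz hind (blockIdx_injective (d := d) (k := k))
      exact h1.comp (fun (_ : Fin d) (y : Option (Idx d k) → ℝ) =>
        y none + val d k fun i => y (some i)) (fun a =>
          (measurable_pi_apply _).add ((measurable_val d k).comp
            (measurable_pi_lambda _ fun i => measurable_pi_apply _)))
    by_cases hev : Even (k + 1)
    · have e1 : {ω | val d (k + 1) (fun i => z i ω) ≤ x} = ⋂ a ∈ (Finset.univ : Finset (Fin d)),
          Y a ⁻¹' Set.Iic x := by
        ext ω
        simp only [val, hev, if_true, Set.mem_ofPred_eq, Finset.mem_univ, Set.iInter_true,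
          Set.mem_iInter, Set.mem_preimage, Set.mem_Iic]
        exact iSup_le_iff' hd _ _
      have e2 := hYind.measure_inter_preimage_eq_mul Finset.univ (sets := fun _ => Set.Iic x)
        (fun _ _ => measurableSet_Iic)
      have e3 : ∀ a, (P (Y a ⁻¹' Set.Iic x)).toReal = (G d p k (x - 1) + G d p k (x + 1)) / 2 :=
        fun a => hcdf a x
      unfold Measure.real
      rw [e1, e2, ENNReal.toReal_prod]
      simp only [e3, Finset.prod_const, Finset.card_univ, Fintype.card_fin]
      simp only [G, hev, if_true]
    · have e1 : {ω | val d (k + 1) (fun i => z i ω) ≤ x}ᶜ =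
          ⋂ a ∈ (Finset.univ : Finset (Fin d)), Y a ⁻¹' Set.Ioi x := by
        ext ω
        simp only [val, hev, if_false, Set.mem_compl_iff, Set.mem_ofPred_eq, Finset.mem_univ,
          Set.iInter_true, Set.mem_iInter, Set.mem_preimage, Set.mem_Ioi, not_le]
        exact lt_iInf_iff' hd _ _
      have hms : MeasurableSet {ω | val d (k + 1) (fun i => z i ω) ≤ x} :=
        measurableSet_le ((measurable_val d (k + 1)).comp (measurable_pi_lambda _ hz))
          measurable_const
      have e2 := hYind.measure_inter_preimage_eq_mul Finset.univ (sets := fun _ => Set.Ioi x)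
        (fun _ _ => measurableSet_Ioi)
      have e3 : ∀ a, (P (Y a ⁻¹' Set.Ioi x)).toReal =
          1 - (G d p k (x - 1) + G d p k (x + 1)) / 2 := by
        intro a
        rw [← hcdf a x]
        have : Y a ⁻¹' Set.Ioi x = {ω | Y a ω ≤ x}ᶜ := by
          ext ω
          simp
        rw [this]
        exact probReal_compl_eq_one_sub (measurableSet_le (hYm a) measurable_const)
      have e4 : P.real {ω | val d (k + 1) (fun i => z i ω) ≤ x}ᶜ =
          (1 - (G d p k (x - 1) + G d p k (x + 1)) / 2) ^ d := by
        unfold Measure.real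
        rw [e1, e2, ENNReal.toReal_prod]
        simp only [e3, Finset.prod_const, Finset.card_univ, Fintype.card_fin]
      have e5 := probReal_compl_eq_one_sub (μ := P) hms
      simp only [G, hev, if_false]
      linarith

end Pool.Agent.Lib.MP_023911_pr
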