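import Pool.Agent.Lib.MP_023911_pr.Crit
import Pool.Agent.Lib.MP_023911_pr.Law

/-!
# From the recursion to convergence in distribution
-/

set_option autoImplicit false

namespace Pool.Agent.Lib.MP_023911_pr

open MeasureTheory ProbabilityTheory Filter Topology

/-! ### The distribution function of the root value and the recursion -/

theorem floor_sub_two (x : ℝ) : ⌊(x - 2) / 2⌋ = ⌊x / 2⌋ - 1 := by
  have : (x - 2) / 2 = x / 2 - 1 := by ring
  rw [this, Int.floor_sub_one]

theorem floor_add_two (x : ℝ) : ⌊(x + 2) / 2⌋ = ⌊x / 2⌋ + 1 := by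
  have : (x + 2) / 2 = x / 2 + 1 := by ring
  rw [this, Int.floor_add_one]

theorem G_eq (d : ℕ) (p : ℝ) (n : ℕ) (x : ℝ) : G d p (2 * n) x = A d p n ⌊x / 2⌋ := by
  induction n generalizing x with
  | zero =>
    unfold A start
    simp only [G, Function.iterate_zero, id]
    by_cases h0 : x < 0
    · have : ⌊x / 2⌋ < 0 := by
        rw [Int.floor_lt]
        push_cast
        linarith
      simp [h0, this]
    · have h1 : ¬ ⌊x / 2⌋ < 0 := by
        rw [not_lt, Int.le_floor]
        push_cast
        linarith
      by_cases h2 : x < 2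
      · have : ⌊x / 2⌋ = 0 := by
          rw [Int.floor_eq_iff]
          push_cast
          constructor <;> linarith
        simp [h0, h2, this]
      · have : ⌊x / 2⌋ ≠ 0 := by
          intro h3
          rw [Int.floor_eq_iff] at h3
          push_cast at h3
          linarith [h3.2]
        simp [h0, h2, h1, this]
  | succ n ih =>
    have e1 : Even (2 * (n + 1)) := even_two_mul _
    have e2 : ¬ Even (2 * n + 1) := by simp
    have hodd : ∀ y, G d p (2 * n + 1) y =
        1 - R d (G d p (2 * n) (y - 1)) (G d p (2 * n) (y + 1)) := by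
      intro y
      simp only [G, e2, if_false, R]
    have hev : G d p (2 * (n + 1)) x =
        ((G d p (2 * n + 1) (x - 1) + G d p (2 * n + 1) (x + 1)) / 2) ^ d := by
      have : 2 * (n + 1) = (2 * n + 1) + 1 := by ring
      rw [this] at e1 ⊢
      rw [G, if_pos e1]
    have a1 : x - 1 - 1 = x - 2 := by ring
    have a2 : x - 1 + 1 = x := by ring
    have a3 : x + 1 - 1 = x := by ring
    have a4 : x + 1 + 1 = x + 2 := by ring
    rw [hev, hodd, hodd, a1, a2, a3, a4, ih, ih, ih, A_succ, T_apply, floor_sub_two,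
      floor_add_two]
    congr 1
    ring

/-! ### The limit law -/

/-- The distribution function of the limit law. -/
noncomputable def limStieltjes {d : ℕ} {c : ℝ} (hg : Good d c) : StieltjesFunction ℝ where
  toFun x := lim d ⌊x / 2⌋
  mono' x y hxy := lim_monotone hg (Int.floor_mono (by linarith))
  right_continuous' x := by
    have h1 : Tendsto (fun y : ℝ => y / 2) (𝓝[≥] x) (𝓝[≥] (x / 2)) := by
      apply tendsto_nhdsWithin_of_tendsto_nhds_of_eventually_within
      · exact ((continuous_id.div_const 2).tendsto x).mono_left nhdsWithin_le_nhds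
      · filter_upwards [self_mem_nhdsWithin] with y hy
        have : x ≤ y := hy
        exact Set.mem_Ici.2 (by linarith)
    have h2 := (tendsto_floor_right_pure_floor (x / 2)).comp h1
    have h3 : Tendsto (fun y : ℝ => lim d ⌊y / 2⌋) (𝓝[≥] x) (pure (lim d ⌊x / 2⌋)) :=
      (tendsto_pure_pure (lim d) _).comp h2
    exact h3.mono_right (pure_le_nhds _)

/-- The limit law. -/
noncomputable def limLaw {d : ℕ} {c : ℝ} (hg : Good d c) : Measure ℝ := (limStieltjes hg).measure

section
variable {d : ℕ} {c : ℝ} (hg : Good d c)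

theorem limStieltjes_atBot : Tendsto (limStieltjes hg) atBot (𝓝 0) := by
  have h1 : Tendsto (fun x : ℝ => ⌊x / 2⌋) atBot atBot :=
    tendsto_floor_atBot.comp (tendsto_id.atBot_div_const two_pos)
  exact (lim_atBot hg).comp h1

theorem limStieltjes_atTop : Tendsto (limStieltjes hg) atTop (𝓝 1) := by
  have h1 : Tendsto (fun x : ℝ => ⌊x / 2⌋) atTop atTop :=
    tendsto_floor_atTop.comp (tendsto_id.atTop_div_const two_pos)
  exact (lim_atTop hg).comp h1

instance : IsProbabilityMeasure (limLaw hg) :=
  StieltjesFunction.isProbabilityMeasure _ (limStieltjes_atBot hg) (limStieltjes_atTop hg)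

theorem limLaw_Iic (x : ℝ) : (limLaw hg).real (Set.Iic x) = lim d ⌊x / 2⌋ := by
  unfold limLaw Measure.real
  rw [StieltjesFunction.measure_Iic _ (limStieltjes_atBot hg), sub_zero,
    ENNReal.toReal_ofReal]
  · rfl
  · exact (lim_mem hg _).1

end

/-! ### Convergence of distribution functions implies weak convergence -/

theorem tendsto_of_cdf {μ : ℕ → ProbabilityMeasure ℝ} {ν : ProbabilityMeasure ℝ}
    (h : ∀ x, Tendsto (fun n => (μ n : Measure ℝ).real (Set.Iic x)) atTop
      (𝓝 ((ν : Measure ℝ).real (Set.Iic x)))) : Tendsto μ atTop (𝓝 ν) := by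
  apply IsPiSystem.tendsto_probabilityMeasure_of_tendsto_of_mem
    (S := {s : Set ℝ | ∃ a b : ℝ, a < b ∧ Set.Ioc a b = s})
  · exact isPiSystem_Ioc (fun x : ℝ => x) (fun x : ℝ => x)
  · rintro s ⟨a, b, _, rfl⟩
    exact measurableSet_Ioc
  · intro u hu x hx
    obtain ⟨ε, hε, hball⟩ := Metric.isOpen_iff.1 hu x hx
    refine ⟨Set.Ioc (x - ε / 2) (x + ε / 2), ⟨_, _, by linarith, rfl⟩, ?_, ?_⟩
    · exact Ioc_mem_nhds (by linarith) (by linarith)
    · intro y hy
      apply hball
      rw [Metric.mem_ball, Real.dist_eq, abs_lt]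
      constructor <;> linarith [hy.1, hy.2]
  · rintro s ⟨a, b, hab, rfl⟩
    have hreal : ∀ m : ProbabilityMeasure ℝ, ((m (Set.Ioc a b) : NNReal) : ℝ) =
        (m : Measure ℝ).real (Set.Iic b) - (m : Measure ℝ).real (Set.Iic a) := by
      intro m
      have h1 : Set.Ioc a b = Set.Iic b \ Set.Iic a := by
        ext y
        simp [and_comm]
      have h2 : ((m (Set.Ioc a b) : NNReal) : ℝ) = (m : Measure ℝ).real (Set.Ioc a b) := rfl
      rw [h2, h1, measureReal_sdiff (Set.Iic_subset_Iic.2 hab.le) measurableSet_Iic]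
    rw [← NNReal.tendsto_coe]
    simp only [hreal]
    exact (h b).sub (h a)

theorem tendstoInDistribution_of_cdf {Ω : Type*} [MeasurableSpace Ω] {P : Measure Ω}
    [IsProbabilityMeasure P] {Y : ℕ → Ω → ℝ} (hY : ∀ n, Measurable (Y n)) {F : Measure ℝ}
    [IsProbabilityMeasure F] {Z : ℝ → ℝ} (hZ : Measurable Z)
    (h : ∀ x, Tendsto (fun n => P.real {ω | Y n ω ≤ x}) atTop (𝓝 (F.real {y | Z y ≤ x}))) :
    TendstoInDistribution Y atTop Z (fun _ => P) F where
  forall_aemeasurable := fun n => (hY n).aemeasurable
  aemeasurable_limit := hZ.aemeasurable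
  tendsto := by
    apply tendsto_of_cdf
    intro x
    have e1 : ∀ n, (P.map (Y n)).real (Set.Iic x) = P.real {ω | Y n ω ≤ x} := by
      intro n
      unfold Measure.real
      rw [Measure.map_apply (hY n) measurableSet_Iic]
      rfl
    have e2 : (F.map Z).real (Set.Iic x) = F.real {y | Z y ≤ x} := by
      unfold Measure.real
      rw [Measure.map_apply hZ measurableSet_Iic]
      rfl
    change Tendsto (fun n => (P.map (Y n)).real (Set.Iic x)) atTop
      (𝓝 ((F.map Z).real (Set.Iic x)))
    rw [e2]
    simp only [e1]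
    exact h x

/-! ### The values of the game -/

theorem value_eq_val {d : ℕ} (k : ℕ) (X : List (Fin d) → Fin d → ℝ)
    (B : {v : List (Fin d) // v.length = k} → ℝ) (V : List (Fin d) → ℝ)
    (h0 : ∀ v (hv : v.length = k), V v = B ⟨v, hv⟩)
    (h1 : ∀ v : List (Fin d), v.length < k → Even (k - v.length) →
      V v = ⨆ a : Fin d, (X v a + V (v ++ [a])))
    (h2 : ∀ v : List (Fin d), v.length < k → ¬ Even (k - v.length) →
      V v = ⨅ a : Fin d, (X v a + V (v ++ [a]))) :
    V [] = val d k (Sum.elim (fun e => X e.1 e.2) B) := by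
  induction k generalizing X V with
  | zero => exact h0 [] rfl
  | succ k ih =>
    have hsub : ∀ a : Fin d, V [a] = val d k (fun i =>
        (Sum.elim (fun e => X e.1 e.2) B : Idx d (k + 1) → ℝ) (consIdx a i)) := by
      intro a
      have h3 := ih (fun v b => X (a :: v) b) (fun w => B ⟨a :: w.1, by simp [w.2]⟩)
        (fun v => V (a :: v)) (fun v hv => h0 (a :: v) (by simp [hv]))
        (fun v hv hev => h1 (a :: v) (by simp; omega) (by simpa using hev))
        (fun v hv hev => h2 (a :: v) (by simp; omega) (by simpa using hev))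
      refine h3.trans ?_
      congr 1
      funext i
      rcases i with e | w <;> rfl
    by_cases hev : Even (k + 1)
    · rw [h1 [] (by simp) (by simpa using hev)]
      simp only [val, hev, if_true, List.nil_append, hsub, Sum.elim_inl]
    · rw [h2 [] (by simp) (by simpa using hev)]
      simp only [val, hev, if_false, List.nil_append, hsub, Sum.elim_inl]

end Pool.Agent.Lib.MP_023911_pr
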