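import Pool.Agent.Lib.MP_023911_pr.Rec

/-!
# The critical point of the recursion
-/

set_option autoImplicit false

namespace Pool.Agent.Lib.MP_023911_pr

open Filter Topology

variable {d : ℕ} {c : ℝ}

/-! ### The limit -/

theorem dist_iter (hg : Good d c) (n : ℕ) (i : ℤ) :
    |(T d)^[n + 1] (start 1) i - (T d)^[n] (start 1) i| ≤ (1 / 2) ^ n := by
  have h := iter_contract hg (Low.map hg (low_start d)) (low_start d) n i
  rwa [← Function.iterate_succ_apply] at h

theorem cauchy_iter (hg : Good d c) (i : ℤ) :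
    CauchySeq fun n => (T d)^[n] (start 1) i := by
  apply cauchySeq_of_le_geometric (1 / 2) 1 (by norm_num)
  intro n
  rw [Real.dist_eq, abs_sub_comm, one_mul]
  exact dist_iter hg n i

/-- The limit distribution function. -/
noncomputable def lim (d : ℕ) (i : ℤ) : ℝ := limUnder atTop fun n => (T d)^[n] (start 1) i

theorem tendsto_lim (hg : Good d c) (i : ℤ) :
    Tendsto (fun n => (T d)^[n] (start 1) i) atTop (𝓝 (lim d i)) :=
  (cauchy_iter hg i).tendsto_limUnder

theorem dist_lim (hg : Good d c) (n : ℕ) (i : ℤ) :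
    |(T d)^[n] (start 1) i - lim d i| ≤ 2 * (1 / 2) ^ n := by
  have h := dist_le_of_le_geometric_of_tendsto (1 / 2) 1 (by norm_num)
    (f := fun n => (T d)^[n] (start 1) i) (fun n => by
      rw [Real.dist_eq, abs_sub_comm, one_mul]
      exact dist_iter hg n i) (tendsto_lim hg i) n
  rw [Real.dist_eq] at h
  refine h.trans (le_of_eq ?_)
  ring

theorem lim_mem (hg : Good d c) : In01 (lim d) := fun i =>
  ⟨ge_of_tendsto' (tendsto_lim hg i) fun n => (iter_mem (low_start d).mem n i).1,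
    le_of_tendsto' (tendsto_lim hg i) fun n => (iter_mem (low_start d).mem n i).2⟩

theorem lim_monotone (hg : Good d c) : Monotone (lim d) := fun i j hij =>
  le_of_tendsto_of_tendsto' (tendsto_lim hg i) (tendsto_lim hg j) fun n =>
    iter_monotone (start_mem zero_le_one le_rfl) (start_monotone zero_le_one le_rfl) n hij

theorem iter_left (hd : 1 ≤ d) (n : ℕ) (i : ℤ) (hi : i < -(n : ℤ)) :
    (T d)^[n] (start 1) i = 0 := by
  induction n generalizing i with
  | zero =>
    have : i < 0 := by simpa using hi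
    simp [start, this]
  | succ n ih =>
    rw [Function.iterate_succ_apply']
    push_cast at hi
    rw [T_apply, ih (i - 1) (by omega), ih i (by omega), ih (i + 1) (by omega)]
    unfold R
    have : d ≠ 0 := by omega
    simp [this]

theorem iter_right (hd : 1 ≤ d) (n : ℕ) (i : ℤ) (hi : (n : ℤ) ≤ i) :
    (T d)^[n] (start 1) i = 1 := by
  induction n generalizing i with
  | zero =>
    have : ¬ i < 0 := by
      have : (0 : ℤ) ≤ i := by simpa using hi
      omega
    simp [start, this]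
  | succ n ih =>
    rw [Function.iterate_succ_apply']
    push_cast at hi
    rw [T_apply, ih (i - 1) (by omega), ih i (by omega), ih (i + 1) (by omega)]
    unfold R
    have : d ≠ 0 := by omega
    simp [this]

theorem lim_atBot (hg : Good d c) : Tendsto (lim d) atBot (𝓝 0) := by
  have hd : 1 ≤ d := le_trans (by norm_num) hg.four_le
  rw [Metric.tendsto_nhds]
  intro ε hε
  have h1 : Tendsto (fun n : ℕ => 2 * (1 / 2 : ℝ) ^ n) atTop (𝓝 0) := by
    have := (tendsto_pow_atTop_nhds_zero_of_lt_one (r := (1 / 2 : ℝ)) (by norm_num)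
      (by norm_num)).const_mul 2
    simpa using this
  obtain ⟨n, hn⟩ := ((tendsto_order.1 h1).2 ε hε).exists
  refine eventually_atBot.2 ⟨-(n : ℤ) - 1, fun i hi => ?_⟩
  have h2 := dist_lim hg n i
  rw [iter_left hd n i (by omega), zero_sub, abs_neg] at h2
  rw [Real.dist_eq, sub_zero]
  exact h2.trans_lt hn

theorem lim_atTop (hg : Good d c) : Tendsto (lim d) atTop (𝓝 1) := by
  have hd : 1 ≤ d := le_trans (by norm_num) hg.four_le
  rw [Metric.tendsto_atTop]
  intro ε hε
  have h1 : Tendsto (fun n : ℕ => 2 * (1 / 2 : ℝ) ^ n) atTop (𝓝 0) := by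
    have := (tendsto_pow_atTop_nhds_zero_of_lt_one (r := (1 / 2 : ℝ)) (by norm_num)
      (by norm_num)).const_mul 2
    simpa using this
  obtain ⟨n, hn⟩ := ((tendsto_order.1 h1).2 ε hε).exists
  refine ⟨(n : ℤ), fun i hi => ?_⟩
  have h2 := dist_lim hg n i
  rw [iter_right hd n i hi, abs_sub_comm] at h2
  rw [Real.dist_eq]
  exact h2.trans_lt hn

/-- Every sequence in the region of attraction converges to the limit. -/
theorem Low.tendsto (hg : Good d c) {a : ℤ → ℝ} (ha : Low d a) (i : ℤ) :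
    Tendsto (fun n => (T d)^[n] a i) atTop (𝓝 (lim d i)) := by
  have h1 : Tendsto (fun n => (T d)^[n] a i - (T d)^[n] (start 1) i) atTop (𝓝 0) := by
    apply squeeze_zero_norm (fun n => iter_contract hg ha (low_start d) n i)
    exact tendsto_pow_atTop_nhds_zero_of_lt_one (by norm_num) (by norm_num)
  have h2 := h1.add (tendsto_lim hg i)
  simpa using h2

/-- If the iterates of `a` enter the region of attraction then they converge to the limit. -/
theorem tendsto_of_low (hg : Good d c) {a : ℤ → ℝ} {N : ℕ} (ha : Low d ((T d)^[N] a)) (i : ℤ) :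
    Tendsto (fun n => (T d)^[n] a i) atTop (𝓝 (lim d i)) := by
  have h := Low.tendsto hg ha i
  have h2 : (fun n => (T d)^[n] ((T d)^[N] a) i) = fun n => (T d)^[n + N] a i := by
    funext n
    rw [Function.iterate_add_apply]
  rw [h2] at h
  exact (tendsto_add_atTop_iff_nat N).1 h

/-- The region of attraction of the limit law of the all-`2` boundary. -/
def High (d : ℕ) (a : ℤ → ℝ) : Prop := Low d fun i => a (i + 1)

theorem tendsto_of_high (hg : Good d c) {a : ℤ → ℝ} {N : ℕ} (ha : High d ((T d)^[N] a))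
    (i : ℤ) : Tendsto (fun n => (T d)^[n] a i) atTop (𝓝 (lim d (i - 1))) := by
  have ha' : Low d ((T d)^[N] fun i => a (i + 1)) := by
    rw [iter_shift]
    exact ha
  have h := tendsto_of_low hg ha' (i - 1)
  have h2 : (fun n => (T d)^[n] (fun i => a (i + 1)) (i - 1)) = fun n => (T d)^[n] a i := by
    funext n
    rw [iter_shift]
    simp
  rwa [h2] at h

/-! ### The trajectories started from the boundary laws -/

/-- The trajectory started from the boundary law with parameter `p`. -/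
noncomputable def A (d : ℕ) (p : ℝ) (n : ℕ) : ℤ → ℝ := (T d)^[n] (start p)

theorem A_succ (p : ℝ) (n : ℕ) : A d p (n + 1) = T d (A d p n) :=
  Function.iterate_succ_apply' _ _ _

section
variable {p : ℝ}

theorem A_mem (h0 : 0 ≤ p) (h1 : p ≤ 1) (n : ℕ) : In01 (A d p n) := iter_mem (start_mem h0 h1) n

theorem A_mono {q : ℝ} (h0 : 0 ≤ p) (hpq : p ≤ q) (h1 : q ≤ 1) (n : ℕ) (i : ℤ) :
    A d p n i ≤ A d q n i :=
  iter_mono (start_mem h0 (hpq.trans h1)) (start_mem (h0.trans hpq) h1) (start_mono hpq) n i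

variable (hg : Good d c)
include hg

theorem A_left (h0 : 0 ≤ p) (h1 : p ≤ 1) (n : ℕ) {i : ℤ} (hi : i < 0) : A d p n i ≤ 1 / d :=
  (A_mono h0 h1 le_rfl n i).trans ((Low.iter hg (low_start d) n).left i hi)

theorem A_right (h0 : 0 ≤ p) (h1 : p ≤ 1) (n : ℕ) {i : ℤ} (hi : 0 < i) :
    1 - 1 / d ≤ A d p n i := by
  have h2 := A_mono (d := d) le_rfl h0 h1 n i
  refine le_trans ?_ h2
  unfold A
  rw [start_zero, iter_shift]
  exact (Low.iter hg (low_start d) n).right (i + -1) (by omega)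

theorem A_low (h0 : 0 ≤ p) (h1 : p ≤ 1) {n : ℕ} (h : 1 - 1 / d ≤ A d p n 0) :
    Low d (A d p n) where
  mem := A_mem h0 h1 n
  left i hi := A_left hg h0 h1 n hi
  right i hi := by
    rcases hi.eq_or_lt with rfl | hi
    · exact h
    · exact A_right hg h0 h1 n hi

theorem A_high (h0 : 0 ≤ p) (h1 : p ≤ 1) {n : ℕ} (h : A d p n 0 ≤ 1 / d) :
    High d (A d p n) where
  mem := fun i => A_mem h0 h1 n (i + 1)
  left i hi := by
    rcases (show i + 1 ≤ 0 by omega).eq_or_lt with h2 | h2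
    · rw [h2]; exact h
    · exact A_left hg h0 h1 n h2
  right i hi := A_right hg h0 h1 n (by omega)

/-- Escape upwards. -/
theorem escape_low (h0 : 0 ≤ p) (h1 : p ≤ 1) {n : ℕ}
    (h : R d (A d p n (-1)) (A d p n 0) < 3 / d) : Low d (A d p (n + 2)) := by
  have hm := fun i => A_mem (d := d) h0 h1 n i
  have hm1 := fun i => A_mem (d := d) h0 h1 (n + 1) i
  have hd := hg.d_pos
  have hi := hg.inv_le
  -- the middle value is at least `c`
  have h2 : c ≤ A d p (n + 1) 0 := by
    rw [A_succ]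
    rw [T_zero]
    apply hg.c_le_pow
    have h3 : R d (A d p n 0) (A d p n 1) ≤ 1 / d :=
      (R_small hg (hm _).1 (hm _).2 (hm _).2 (A_right hg h0 h1 n (by norm_num))).trans
        hg.pow_small'
    have h4 : 3 / (d : ℝ) = 3 * (1 / d) := by ring
    have h5 : 2 / (d : ℝ) = 2 * (1 / d) := by ring
    rw [h4] at h
    rw [h5]
    linarith
  apply A_low hg h0 h1
  rw [A_succ]
  rw [T_zero]
  apply hg.bernoulli
  have h3 : R d (A d p (n + 1) 0) (A d p (n + 1) 1) ≤ (1 - c / 2) ^ d :=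
    R_small hg (hm1 _).1 (hm1 _).2 (hm1 _).2 (A_right hg h0 h1 _ (by norm_num))
  have h4 : R d (A d p (n + 1) (-1)) (A d p (n + 1) 0) ≤ (1 - c / 2) ^ d := by
    apply pow_le_pow_left₀
    · linarith [(hm1 (-1)).2, (hm1 0).2]
    · linarith [(hm1 (-1)).1]
  linarith

/-- Escape downwards. -/
theorem escape_high (h0 : 0 ≤ p) (h1 : p ≤ 1) {n : ℕ} (h : A d p n 0 < 2 / d) :
    High d (A d p (n + 1)) := by
  have hm := fun i => A_mem (d := d) h0 h1 n i
  apply A_high hg h0 h1
  rw [A_succ]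
  have h2 : c ≤ R d (A d p n (-1)) (A d p n 0) := by
    apply c_le_R hg
    have h3 := A_left hg h0 h1 n (i := -1) (by norm_num)
    have h4 : 2 / (d : ℝ) = 2 * (1 / d) := by ring
    have h5 : 0 < 1 / (d : ℝ) := div_pos one_pos hg.d_pos
    rw [h4] at h ⊢
    linarith
  have h3 := R_nonneg (d := d) (hm 0).2 (hm 1).2
  have h4 := R_le_one (d := d) (hm (-1)).1 (hm (-1)).2 (hm 0).1 (hm 0).2
  have h5 := R_le_one (d := d) (hm 0).1 (hm 0).2 (hm 1).1 (hm 1).2
  rw [T_zero]
  refine le_trans (pow_le_pow_left₀ (by linarith) ?_ _) hg.pow_small'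
  linarith

/-- Expansion in the middle region. -/
theorem expand {q : ℝ} (h0 : 0 ≤ p) (hpq : p ≤ q) (h1 : q ≤ 1) (n : ℕ)
    (hq : 3 / d ≤ R d (A d q n (-1)) (A d q n 0)) (hp : 2 / d ≤ A d p (n + 1) 0) :
    3 / 2 * (A d q n 0 - A d p n 0) ≤ A d q (n + 1) 0 - A d p (n + 1) 0 := by
  have hd : 1 ≤ d := le_trans (by norm_num) hg.four_le
  have hdpos := hg.d_pos
  have mp := fun i => A_mem (d := d) h0 (hpq.trans h1) n i
  have mq := fun i => A_mem (d := d) (h0.trans hpq) h1 n i
  have hmono := fun i => A_mono (d := d) h0 hpq h1 n i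
  -- increment of the odd level
  have s1 : d * R d (A d q n (-1)) (A d q n 0) *
      ((1 - (A d p n (-1) + A d p n 0) / 2) - (1 - (A d q n (-1) + A d q n 0) / 2)) ≤
      R d (A d p n (-1)) (A d p n 0) - R d (A d q n (-1)) (A d q n 0) := by
    apply pow_sub_pow_ge hd
    · linarith [(mq (-1)).2, (mq 0).2]
    · linarith [hmono (-1), hmono 0]
    · linarith [(mq (-1)).1, (mq 0).1]
  have rp0 := R_nonneg (d := d) (mp (-1)).2 (mp 0).2
  have rp1 := R_nonneg (d := d) (mp 0).2 (mp 1).2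
  have rq0 := R_nonneg (d := d) (mq (-1)).2 (mq 0).2
  have rq1 := R_nonneg (d := d) (mq 0).2 (mq 1).2
  have rp0' := R_le_one (d := d) (mp (-1)).1 (mp (-1)).2 (mp 0).1 (mp 0).2
  have rp1' := R_le_one (d := d) (mp 0).1 (mp 0).2 (mp 1).1 (mp 1).2
  have a1 : R d (A d q n 0) (A d q n 1) ≤ R d (A d p n 0) (A d p n 1) :=
    R_anti (hmono _) (hmono _) (mq _).2 (mq _).2
  have a0 : R d (A d q n (-1)) (A d q n 0) ≤ R d (A d p n (-1)) (A d p n 0) :=
    R_anti (hmono _) (hmono _) (mq _).2 (mq _).2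
  have s2 : d * A d p (n + 1) 0 *
      ((1 - (R d (A d q n (-1)) (A d q n 0) + R d (A d q n 0) (A d q n 1)) / 2) -
        (1 - (R d (A d p n (-1)) (A d p n 0) + R d (A d p n 0) (A d p n 1)) / 2)) ≤
      A d q (n + 1) 0 - A d p (n + 1) 0 := by
    rw [A_succ, A_succ]
    rw [T_zero]
    apply pow_sub_pow_ge hd
    · linarith
    · linarith
    · linarith
  -- lower bounds of the factors
  set δ := A d q n 0 - A d p n 0 with hδ
  have hδ0 : 0 ≤ δ := sub_nonneg.2 (hmono 0)
  set ρ := R d (A d p n (-1)) (A d p n 0) - R d (A d q n (-1)) (A d q n 0) with hρ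
  have hρ0 : 0 ≤ ρ := sub_nonneg.2 a0
  have t1 : 3 / 2 * δ ≤ ρ := by
    refine le_trans ?_ s1
    have h2 : 3 ≤ d * R d (A d q n (-1)) (A d q n 0) := by
      rw [div_le_iff₀ hdpos] at hq
      linarith
    have h3 : δ / 2 ≤ (1 - (A d p n (-1) + A d p n 0) / 2) -
        (1 - (A d q n (-1) + A d q n 0) / 2) := by
      rw [hδ]
      linarith [hmono (-1)]
    calc 3 / 2 * δ = 3 * (δ / 2) := by ring
      _ ≤ _ := mul_le_mul h2 h3 (by linarith) (by linarith)
  have t2 : ρ ≤ A d q (n + 1) 0 - A d p (n + 1) 0 := by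
    refine le_trans ?_ s2
    have h2 : 2 ≤ d * A d p (n + 1) 0 := by
      rw [div_le_iff₀ hdpos] at hp
      linarith
    have h3 : ρ / 2 ≤ (1 - (R d (A d q n (-1)) (A d q n 0) +
        R d (A d q n 0) (A d q n 1)) / 2) -
        (1 - (R d (A d p n (-1)) (A d p n 0) + R d (A d p n 0) (A d p n 1)) / 2) := by
      rw [hρ]
      linarith
    calc ρ = 2 * (ρ / 2) := by ring
      _ ≤ _ := mul_le_mul h2 h3 (by linarith) (by linarith)
  exact t1.trans t2

/-- At most one parameter never escapes. -/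
theorem no_two {q : ℝ} (h0 : 0 ≤ p) (hpq : p < q) (h1 : q ≤ 1)
    (hq : ∀ n, ¬ Low d (A d q n)) (hp : ∀ n, ¬ High d (A d p n)) : False := by
  have hR : ∀ n, 3 / d ≤ R d (A d q n (-1)) (A d q n 0) := by
    intro n
    by_contra hlt
    exact hq _ (escape_low hg (h0.trans hpq.le) h1 (not_le.1 hlt))
  have hA : ∀ n, 2 / d ≤ A d p n 0 := by
    intro n
    by_contra hlt
    exact hp _ (escape_high hg h0 (hpq.le.trans h1) (not_le.1 hlt))
  have hgrow : ∀ n, (3 / 2) ^ n * (q - p) ≤ A d q n 0 - A d p n 0 := by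
    intro n
    induction n with
    | zero =>
      unfold A start
      simp
    | succ n ih =>
      refine le_trans ?_ (expand hg h0 hpq.le h1 n (hR n) (hA (n + 1)))
      calc (3 / 2 : ℝ) ^ (n + 1) * (q - p) = 3 / 2 * ((3 / 2) ^ n * (q - p)) := by ring
        _ ≤ _ := by linarith
  have hpos : 0 < q - p := sub_pos.2 hpq
  obtain ⟨n, hn⟩ := pow_unbounded_of_one_lt (1 / (q - p)) (show (1 : ℝ) < 3 / 2 by norm_num)
  have h2 := hgrow n
  rw [div_lt_iff₀ hpos] at hn
  have h3 := (A_mem (d := d) (h0.trans hpq.le) h1 n 0).2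
  have h4 := (A_mem (d := d) h0 (hpq.le.trans h1) n 0).1
  linarith

omit hg in
theorem low_mono {q : ℝ} (hg : Good d c) (h0 : 0 ≤ p) (hpq : p ≤ q) (h1 : q ≤ 1) {n : ℕ}
    (h : Low d (A d p n)) : Low d (A d q n) :=
  A_low hg (h0.trans hpq) h1 ((h.right 0 le_rfl).trans (A_mono h0 hpq h1 n 0))

omit hg in
theorem high_mono {q : ℝ} (hg : Good d c) (h0 : 0 ≤ p) (hpq : p ≤ q) (h1 : q ≤ 1) {n : ℕ}
    (h : High d (A d q n)) : High d (A d p n) := by
  apply A_high hg h0 (hpq.trans h1)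
  refine (A_mono h0 hpq h1 n 0).trans ?_
  have := h.left (-1) (by norm_num)
  simpa using this

/-- The critical point of the recursion. -/
theorem exists_crit : ∃ pc : ℝ, 0 < pc ∧ pc < 1 ∧
    (∀ p : ℝ, 0 ≤ p → p < pc → ∃ n, High d (A d p n)) ∧
    (∀ p : ℝ, pc < p → p ≤ 1 → ∃ n, Low d (A d p n)) := by
  have hd := hg.d_pos
  have hinv := hg.inv_le
  have hinv0 : 0 < 1 / (d : ℝ) := div_pos one_pos hd
  set S : Set ℝ := {p | 0 ≤ p ∧ p ≤ 1 ∧ ∃ n, High d (A d p n)} with hS
  -- `1 / d` belongs to `S`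
  have hmem : 1 / (d : ℝ) ∈ S := by
    refine ⟨hinv0.le, by linarith, 0 + 1, escape_high hg hinv0.le (by linarith) ?_⟩
    have : A d (1 / (d : ℝ)) 0 0 = 1 / d := by
      unfold A start
      simp
    rw [this]
    have : 2 / (d : ℝ) = 2 * (1 / d) := by ring
    rw [this]
    linarith
  -- one half belongs to the other set
  have hhalf : Low d (A d (1 / 2) 2) := by
    apply escape_low hg (n := 0) (by norm_num) (by norm_num)
    have e1 : A d (1 / 2) 0 (-1) = 0 := by
      unfold A start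
      simp
    have e2 : A d (1 / 2) 0 0 = 1 / 2 := by
      unfold A start
      simp
    rw [e1, e2]
    have h2 : R d 0 (1 / 2) ≤ (1 - c / 2) ^ d := by
      apply pow_le_pow_left₀ (by norm_num)
      have h3 := hg.c_pos
      -- `c ≤ 1 / 2`
      have h4 : c ≤ (1 - 2 / d) ^ d := hg.c_le
      have h5 : (1 - 2 / (d : ℝ)) ^ d ≤ 1 / 2 := by
        have h6 : (1 - 2 / (d : ℝ)) * (1 + 2 / d) ≤ 1 := by nlinarith [sq_nonneg (2 / (d : ℝ))]
        have h7 : 1 + (d : ℝ) * (2 / d) ≤ (1 + 2 / d) ^ d := by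
          apply one_add_mul_le_pow
          have : 0 ≤ 2 / (d : ℝ) := by positivity
          linarith
        have h8 : (d : ℝ) * (2 / d) = 2 := by field_simp
        rw [h8] at h7
        have h9 : 0 ≤ 1 - 2 / (d : ℝ) := by
          have : 2 / (d : ℝ) = 2 * (1 / d) := by ring
          linarith
        have h10 : ((1 - 2 / (d : ℝ)) * (1 + 2 / d)) ^ d ≤ 1 :=
          pow_le_one₀ (mul_nonneg h9 (by positivity)) h6
        rw [mul_pow] at h10
        have h11 : 0 ≤ (1 - 2 / (d : ℝ)) ^ d := pow_nonneg h9 _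
        nlinarith
      norm_num
      linarith
    refine lt_of_le_of_lt (h2.trans hg.pow_small') ?_
    apply div_lt_div_of_pos_right _ hd
    norm_num
  have hub : ∀ p ∈ S, p ≤ 1 / 2 := by
    rintro p ⟨h0, h1, n, hn⟩
    by_contra hlt
    have hlt' : 1 / 2 ≤ p := (not_le.1 hlt).le
    have hL : Low d (A d p 2) := low_mono hg (by norm_num) hlt' h1 hhalf
    -- both limits would hold
    have t1 := tendsto_of_low hg (a := start p) (N := 2) hL 0
    have t2 := tendsto_of_high hg (a := start p) (N := n) hn 0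
    have t3 := tendsto_nhds_unique t1 t2
    have b1 : 1 - 1 / d ≤ lim d 0 :=
      ge_of_tendsto' (tendsto_lim hg 0) fun n => (Low.iter hg (low_start d) n).right 0 le_rfl
    have b2 : lim d (0 - 1) ≤ 1 / d :=
      le_of_tendsto' (tendsto_lim hg (0 - 1)) fun n =>
        (Low.iter hg (low_start d) n).left (0 - 1) (by norm_num)
    rw [← t3] at b2
    linarith
  have hbdd : BddAbove S := ⟨1 / 2, hub⟩
  refine ⟨sSup S, lt_of_lt_of_le hinv0 (le_csSup hbdd hmem),
    lt_of_le_of_lt (csSup_le ⟨_, hmem⟩ hub) (by norm_num), ?_, ?_⟩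
  · intro p h0 hp
    obtain ⟨q, ⟨hq0, hq1, n, hn⟩, hpq⟩ := exists_lt_of_lt_csSup ⟨_, hmem⟩ hp
    exact ⟨n, high_mono hg h0 hpq.le hq1 hn⟩
  · intro p hp h1
    by_contra hno
    push Not at hno
    have hpos : 0 < sSup S := lt_of_lt_of_le hinv0 (le_csSup hbdd hmem)
    have hmid : sSup S < (sSup S + p) / 2 := by linarith
    have hmid' : (sSup S + p) / 2 < p := by linarith
    apply no_two hg (p := (sSup S + p) / 2) (q := p) (by linarith) hmid' h1 hno
    intro n hn
    have : (sSup S + p) / 2 ∈ S := ⟨by linarith, by linarith, n, hn⟩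
    exact absurd (le_csSup hbdd this) (not_le.2 hmid)

end

/-! ### All large degrees are good -/

theorem exp_neg_le {d : ℕ} (hd : 4 ≤ d) : Real.exp (-4) ≤ (1 - 2 / (d : ℝ)) ^ d := by
  have hd' : (4 : ℝ) ≤ d := by exact_mod_cast hd
  have hpos : (0 : ℝ) < d := by linarith
  have h1 : (0 : ℝ) < 1 - 2 / d := by
    rw [sub_pos, div_lt_one hpos]
    linarith
  have h2 : Real.exp (-4 / d) ≤ 1 - 2 / d := by
    have h3 : 4 / (d : ℝ) + 1 ≤ Real.exp (4 / d) := Real.add_one_le_exp _
    have h4 : Real.exp (-4 / d) = (Real.exp (4 / d))⁻¹ := by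
      rw [neg_div, Real.exp_neg]
    rw [h4]
    rw [inv_le_comm₀ (Real.exp_pos _) h1]
    refine le_trans ?_ h3
    rw [inv_eq_one_div, div_le_iff₀ h1]
    have h5 : (4 / (d : ℝ) + 1) * (1 - 2 / d) = 1 + (2 / d) * (1 - 4 / d) := by
      field_simp
      ring
    rw [h5]
    have h6 : 0 ≤ 1 - 4 / (d : ℝ) := by
      rw [sub_nonneg, div_le_one hpos]
      exact hd'
    have h7 : 0 ≤ 2 / (d : ℝ) := by positivity
    nlinarith
  calc Real.exp (-4) = Real.exp (-4 / d) ^ d := by
        rw [← Real.exp_nat_mul]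
        congr 1
        field_simp
    _ ≤ _ := pow_le_pow_left₀ (Real.exp_pos _).le h2 _

theorem exists_good : ∃ d₀ : ℕ, ∀ d : ℕ, d₀ ≤ d → Good d (Real.exp (-4)) := by
  set θ : ℝ := 1 - Real.exp (-4) / 2 with hθ
  have he : 0 < Real.exp (-4) := Real.exp_pos _
  have he1 : Real.exp (-4) ≤ 1 := Real.exp_le_one_iff.2 (by norm_num)
  have hθ0 : 0 < θ := by rw [hθ]; linarith
  have hθ1 : θ < 1 := by rw [hθ]; linarith
  have h1 : Tendsto (fun n : ℕ => (n : ℝ) ^ 2 * θ ^ n) atTop (𝓝 0) :=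
    tendsto_pow_const_mul_const_pow_of_abs_lt_one 2 (by rw [abs_of_pos hθ0]; exact hθ1)
  have h2 : ∀ᶠ n : ℕ in atTop, (n : ℝ) ^ 2 * θ ^ n < θ / 2 :=
    (tendsto_order.1 h1).2 _ (by linarith)
  obtain ⟨N, hN⟩ := eventually_atTop.1 h2
  refine ⟨max N 4, fun d hd => ⟨le_of_max_le_right hd, he, exp_neg_le (le_of_max_le_right hd), ?_⟩⟩
  have h3 := hN d (le_of_max_le_left hd)
  have h4 : θ ^ d = θ * θ ^ (d - 1) := by
    rw [← pow_succ']
    congr 1
    have := le_of_max_le_right hd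
    omega
  rw [h4] at h3
  rw [← hθ]
  have h5 : θ * ((d : ℝ) ^ 2 * θ ^ (d - 1)) < θ * (1 / 2) := by
    calc θ * ((d : ℝ) ^ 2 * θ ^ (d - 1)) = (d : ℝ) ^ 2 * (θ * θ ^ (d - 1)) := by ring
      _ < θ / 2 := h3
      _ = θ * (1 / 2) := by ring
  exact (lt_of_mul_lt_mul_left h5 hθ0.le).le

end Pool.Agent.Lib.MP_023911_pr
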