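import Mathlib

/-!
# The recursion for the distribution functions of the noisy min-max game

`a i` is the probability that the value at an even level is at most `2 i`. One round of the
game (a minimum followed by a maximum) maps `a` to `T d a`.
-/

set_option autoImplicit false

namespace Pool.Agent.Lib.MP_023911_pr

open Filter Topology

/-! ### Elementary inequalities for powers -/

theorem pow_sub_pow_upper {x y : ℝ} (hy : 0 ≤ y) (hyx : y ≤ x) (n : ℕ) :
    x ^ (n + 1) - y ^ (n + 1) ≤ (n + 1) * x ^ n * (x - y) := by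
  induction n with
  | zero => simp
  | succ n ih =>
    have hx : 0 ≤ x := hy.trans hyx
    have h1 : x ^ (n + 1 + 1) - y ^ (n + 1 + 1) =
        x * (x ^ (n + 1) - y ^ (n + 1)) + y ^ (n + 1) * (x - y) := by ring
    have h2 : x * (x ^ (n + 1) - y ^ (n + 1)) ≤ x * ((n + 1) * x ^ n * (x - y)) :=
      mul_le_mul_of_nonneg_left ih hx
    have h3 : y ^ (n + 1) * (x - y) ≤ x ^ (n + 1) * (x - y) :=
      mul_le_mul_of_nonneg_right (pow_le_pow_left₀ hy hyx _) (sub_nonneg.2 hyx)
    push_cast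
    calc x ^ (n + 1 + 1) - y ^ (n + 1 + 1)
        ≤ x * ((n + 1) * x ^ n * (x - y)) + x ^ (n + 1) * (x - y) := by linarith
      _ = _ := by ring

theorem pow_sub_pow_lower {x y : ℝ} (hy : 0 ≤ y) (hyx : y ≤ x) (n : ℕ) :
    (n + 1) * y ^ n * (x - y) ≤ x ^ (n + 1) - y ^ (n + 1) := by
  induction n with
  | zero => simp
  | succ n ih =>
    have hx : 0 ≤ x := hy.trans hyx
    have h1 : x ^ (n + 1 + 1) - y ^ (n + 1 + 1) =
        y * (x ^ (n + 1) - y ^ (n + 1)) + x ^ (n + 1) * (x - y) := by ring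
    have h2 : y * ((n + 1) * y ^ n * (x - y)) ≤ y * (x ^ (n + 1) - y ^ (n + 1)) :=
      mul_le_mul_of_nonneg_left ih hy
    have h3 : y ^ (n + 1) * (x - y) ≤ x ^ (n + 1) * (x - y) :=
      mul_le_mul_of_nonneg_right (pow_le_pow_left₀ hy hyx _) (sub_nonneg.2 hyx)
    push_cast
    calc _ = y * ((n + 1) * y ^ n * (x - y)) + y ^ (n + 1) * (x - y) := by ring
      _ ≤ _ := by linarith

/-- Lipschitz bound for the `d`-th power on `[0, M]`. -/
theorem abs_pow_sub_pow {x y M : ℝ} {d : ℕ} (hd : 1 ≤ d) (hx : 0 ≤ x) (hy : 0 ≤ y)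
    (hxM : x ≤ M) (hyM : y ≤ M) : |x ^ d - y ^ d| ≤ d * M ^ (d - 1) * |x - y| := by
  obtain ⟨n, rfl⟩ : ∃ n, d = n + 1 := ⟨d - 1, by omega⟩
  simp only [Nat.add_sub_cancel]
  push_cast
  rcases le_total y x with h | h
  · rw [abs_of_nonneg (sub_nonneg.2 h),
      abs_of_nonneg (sub_nonneg.2 (pow_le_pow_left₀ hy h _))]
    refine (pow_sub_pow_upper hy h n).trans ?_
    have := pow_le_pow_left₀ hx hxM n
    have h0 := sub_nonneg.2 h
    gcongr
  · rw [abs_of_nonpos (sub_nonpos.2 h),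
      abs_of_nonpos (sub_nonpos.2 (pow_le_pow_left₀ hx h _)), neg_sub, neg_sub]
    refine (pow_sub_pow_upper hx h n).trans ?_
    have := pow_le_pow_left₀ hy hyM n
    have h0 := sub_nonneg.2 h
    gcongr

/-- The lower bound for increments of the `d`-th power on `[0, 1]`. -/
theorem pow_sub_pow_ge {x y : ℝ} {d : ℕ} (hd : 1 ≤ d) (hy : 0 ≤ y) (hyx : y ≤ x) (hy1 : y ≤ 1) :
    d * y ^ d * (x - y) ≤ x ^ d - y ^ d := by
  obtain ⟨n, rfl⟩ : ∃ n, d = n + 1 := ⟨d - 1, by omega⟩
  refine le_trans ?_ (pow_sub_pow_lower hy hyx n)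
  have h1 : y ^ (n + 1) ≤ y ^ n := pow_le_pow_of_le_one hy hy1 (Nat.le_succ n)
  have h0 := sub_nonneg.2 hyx
  push_cast
  gcongr

/-! ### The recursion -/

/-- The probability that the value at an odd level exceeds a threshold. -/
noncomputable def R (d : ℕ) (s t : ℝ) : ℝ := (1 - (s + t) / 2) ^ d

/-- One round of the game. -/
noncomputable def T (d : ℕ) (a : ℤ → ℝ) (i : ℤ) : ℝ :=
  (1 - (R d (a (i - 1)) (a i) + R d (a i) (a (i + 1))) / 2) ^ d

theorem T_apply (d : ℕ) (a : ℤ → ℝ) (i : ℤ) :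
    T d a i = (1 - (R d (a (i - 1)) (a i) + R d (a i) (a (i + 1))) / 2) ^ d := rfl

theorem T_zero (d : ℕ) (a : ℤ → ℝ) :
    T d a 0 = (1 - (R d (a (-1)) (a 0) + R d (a 0) (a 1)) / 2) ^ d := rfl

/-- Sequences with values in `[0, 1]`. -/
def In01 (a : ℤ → ℝ) : Prop := ∀ i, 0 ≤ a i ∧ a i ≤ 1

variable {d : ℕ}

theorem R_nonneg {s t : ℝ} (hs : s ≤ 1) (ht : t ≤ 1) : 0 ≤ R d s t :=
  pow_nonneg (by linarith) _

theorem R_le_one {s t : ℝ} (hs : 0 ≤ s) (hs1 : s ≤ 1) (ht : 0 ≤ t) (ht1 : t ≤ 1) :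
    R d s t ≤ 1 := pow_le_one₀ (by linarith) (by linarith)

theorem R_anti {s t s' t' : ℝ} (hs : s ≤ s') (ht : t ≤ t') (hs' : s' ≤ 1) (ht' : t' ≤ 1) :
    R d s' t' ≤ R d s t := pow_le_pow_left₀ (by linarith) (by linarith) _

theorem T_mem {a : ℤ → ℝ} (ha : In01 a) : In01 (T d a) := by
  intro i
  have h1 := R_nonneg (d := d) (ha (i - 1)).2 (ha i).2
  have h2 := R_nonneg (d := d) (ha i).2 (ha (i + 1)).2
  have h3 := R_le_one (d := d) (ha (i - 1)).1 (ha (i - 1)).2 (ha i).1 (ha i).2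
  have h4 := R_le_one (d := d) (ha i).1 (ha i).2 (ha (i + 1)).1 (ha (i + 1)).2
  exact ⟨pow_nonneg (by linarith) _, pow_le_one₀ (by linarith) (by linarith)⟩

theorem T_mono {a b : ℤ → ℝ} (ha : In01 a) (hb : In01 b) (h : ∀ i, a i ≤ b i) (i : ℤ) :
    T d a i ≤ T d b i := by
  have h1 := R_anti (d := d) (h (i - 1)) (h i) (hb (i - 1)).2 (hb i).2
  have h2 := R_anti (d := d) (h i) (h (i + 1)) (hb i).2 (hb (i + 1)).2
  have h3 := R_le_one (d := d) (ha (i - 1)).1 (ha (i - 1)).2 (ha i).1 (ha i).2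
  have h4 := R_le_one (d := d) (ha i).1 (ha i).2 (ha (i + 1)).1 (ha (i + 1)).2
  exact pow_le_pow_left₀ (by linarith) (by linarith) _

theorem T_shift (a : ℤ → ℝ) (k : ℤ) :
    T d (fun i => a (i + k)) = fun i => T d a (i + k) := by
  funext i
  have e1 : i - 1 + k = i + k - 1 := by ring
  have e2 : i + 1 + k = i + k + 1 := by ring
  unfold T
  beta_reduce
  rw [e1, e2]

theorem iter_mem {a : ℤ → ℝ} (ha : In01 a) (n : ℕ) : In01 ((T d)^[n] a) := by
  induction n with
  | zero => exact ha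
  | succ n ih => rw [Function.iterate_succ_apply']; exact T_mem ih

theorem iter_mono {a b : ℤ → ℝ} (ha : In01 a) (hb : In01 b) (h : ∀ i, a i ≤ b i) (n : ℕ)
    (i : ℤ) : (T d)^[n] a i ≤ (T d)^[n] b i := by
  induction n generalizing i with
  | zero => exact h i
  | succ n ih =>
    rw [Function.iterate_succ_apply', Function.iterate_succ_apply']
    exact T_mono (iter_mem ha n) (iter_mem hb n) ih i

theorem iter_shift (a : ℤ → ℝ) (k : ℤ) (n : ℕ) :
    (T d)^[n] (fun i => a (i + k)) = fun i => (T d)^[n] a (i + k) := by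
  induction n with
  | zero => rfl
  | succ n ih => rw [Function.iterate_succ_apply', Function.iterate_succ_apply', ih, T_shift]

/-- The distribution function of the boundary values. -/
noncomputable def start (p : ℝ) (i : ℤ) : ℝ := if i < 0 then 0 else if i = 0 then p else 1

theorem start_mem {p : ℝ} (h0 : 0 ≤ p) (h1 : p ≤ 1) : In01 (start p) := by
  intro i
  unfold start
  split_ifs
  · exact ⟨le_rfl, zero_le_one⟩
  · exact ⟨h0, h1⟩
  · exact ⟨zero_le_one, le_rfl⟩

theorem start_mono {p q : ℝ} (h : p ≤ q) (i : ℤ) : start p i ≤ start q i := by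
  unfold start
  split_ifs
  · exact le_rfl
  · exact h
  · exact le_rfl

theorem start_zero : start 0 = fun i => start 1 (i + (-1)) := by
  funext i
  unfold start
  split_ifs <;> first | rfl | omega

theorem start_monotone {p : ℝ} (h0 : 0 ≤ p) (h1 : p ≤ 1) : Monotone (start p) := by
  intro i j hij
  unfold start
  split_ifs <;> first | linarith | omega

theorem T_monotone {a : ℤ → ℝ} (ha : In01 a) (h : Monotone a) : Monotone (T d a) := by
  intro i j hij
  have hk : ∀ k, a k ≤ a (k + (j - i)) := fun k => h (by linarith)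
  have hb : In01 (fun k => a (k + (j - i))) := fun k => ha _
  have h1 := T_mono (d := d) ha hb hk i
  rw [T_shift] at h1
  simpa using h1

theorem iter_monotone {a : ℤ → ℝ} (ha : In01 a) (h : Monotone a) (n : ℕ) :
    Monotone ((T d)^[n] a) := by
  induction n with
  | zero => exact h
  | succ n ih => rw [Function.iterate_succ_apply']; exact T_monotone (iter_mem ha n) ih

/-! ### The attracting region -/

/-- The conditions on the degree that are used in the proof. -/
structure Good (d : ℕ) (c : ℝ) : Prop where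
  four_le : 4 ≤ d
  c_pos : 0 < c
  c_le : c ≤ (1 - 2 / d) ^ d
  small : (d : ℝ) ^ 2 * (1 - c / 2) ^ (d - 1) ≤ 1 / 2

section
variable {c : ℝ} (hg : Good d c)
include hg

theorem Good.d_pos : (0 : ℝ) < d := by
  have := hg.four_le
  have : (0 : ℕ) < d := by omega
  exact_mod_cast this

theorem Good.four_le' : (4 : ℝ) ≤ d := by exact_mod_cast hg.four_le

theorem Good.inv_le : 1 / (d : ℝ) ≤ 1 / 4 := by
  have := hg.four_le'
  rw [div_le_div_iff₀ hg.d_pos (by norm_num)]
  linarith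

theorem Good.c_le_pow {x : ℝ} (hx : x ≤ 2 / d) : c ≤ (1 - x) ^ d := by
  refine hg.c_le.trans (pow_le_pow_left₀ ?_ (by linarith) _)
  have : 2 / (d : ℝ) ≤ 2 / 4 := by
    rw [div_le_div_iff₀ hg.d_pos (by norm_num)]
    linarith [hg.four_le']
  linarith

theorem Good.c_le' : c ≤ 1 - 1 / d := by
  have h0 : (0 : ℝ) ≤ 1 - 2 / d := by
    have : 2 / (d : ℝ) ≤ 2 / 4 := by
      rw [div_le_div_iff₀ hg.d_pos (by norm_num)]
      linarith [hg.four_le']
    linarith
  have h1 : (1 - 2 / (d : ℝ)) ^ d ≤ (1 - 2 / d) ^ 1 := by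
    apply pow_le_pow_of_le_one h0
    · have : 0 < 2 / (d : ℝ) := div_pos two_pos hg.d_pos
      linarith
    · have := hg.four_le
      omega
  have h2 : 1 / (d : ℝ) ≤ 2 / d := by
    apply div_le_div_of_nonneg_right _ hg.d_pos.le
    norm_num
  have := hg.c_le
  rw [pow_one] at h1
  linarith

theorem Good.theta_nonneg : 0 ≤ 1 - c / 2 := by
  have := hg.c_le'
  have h2 : 0 < 1 / (d : ℝ) := div_pos one_pos hg.d_pos
  linarith

theorem Good.theta_le_one : 1 - c / 2 ≤ 1 := by
  have := hg.c_pos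
  linarith

theorem Good.pow_small : (d : ℝ) * (1 - c / 2) ^ d ≤ 1 / d := by
  have h1 : (1 - c / 2) ^ d ≤ (1 - c / 2) ^ (d - 1) :=
    pow_le_pow_of_le_one hg.theta_nonneg hg.theta_le_one (Nat.sub_le _ _)
  have h2 := hg.small
  have hd := hg.d_pos
  rw [le_div_iff₀ hd]
  have h3 : 0 ≤ (1 - c / 2) ^ d := pow_nonneg hg.theta_nonneg _
  nlinarith [mul_le_mul_of_nonneg_left h1 (sq_nonneg (d : ℝ))]

theorem Good.pow_small' : (1 - c / 2) ^ d ≤ 1 / d := by
  have h := hg.pow_small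
  have h3 : 0 ≤ (1 - c / 2) ^ d := pow_nonneg hg.theta_nonneg _
  have h4 := hg.four_le'
  nlinarith

theorem Good.half_le : (1 + 1 / (d : ℝ)) / 2 ≤ 1 - c / 2 := by
  have := hg.c_le'
  linarith

/-- `(1 - x)^d ≥ 1 - d x` in the form that is needed. -/
theorem Good.bernoulli {x : ℝ} (hx : x ≤ (1 - c / 2) ^ d) :
    1 - 1 / d ≤ (1 - x) ^ d := by
  have h1 : 1 + (d : ℝ) * (-x) ≤ (1 + -x) ^ d := by
    apply one_add_mul_le_pow
    have := hg.pow_small'
    have := hg.inv_le
    linarith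
  have h2 := hg.pow_small
  have h3 : (d : ℝ) * x ≤ d * (1 - c / 2) ^ d := mul_le_mul_of_nonneg_left hx hg.d_pos.le
  have h4 : (1 + -x) ^ d = (1 - x) ^ d := by rw [← sub_eq_add_neg]
  rw [h4] at h1
  linarith

end

/-- The region of attraction of the limit law of the all-`0` boundary. -/
structure Low (d : ℕ) (a : ℤ → ℝ) : Prop where
  mem : In01 a
  left : ∀ i : ℤ, i < 0 → a i ≤ 1 / d
  right : ∀ i : ℤ, 0 ≤ i → 1 - 1 / d ≤ a i

theorem low_start (d : ℕ) : Low d (start 1) where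
  mem := start_mem zero_le_one le_rfl
  left i hi := by
    unfold start
    rw [if_pos hi]
    positivity
  right i hi := by
    unfold start
    rw [if_neg (not_lt.2 hi)]
    have : (0 : ℝ) ≤ 1 / d := by positivity
    split_ifs <;> linarith

section
variable {c : ℝ} (hg : Good d c)
include hg

/-- Lower bound of `R` when both arguments are small. -/
theorem c_le_R {s t : ℝ} (h : (s + t) / 2 ≤ 2 / d) : c ≤ R d s t := hg.c_le_pow h

/-- Upper bound of `R` when the second argument is large. -/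
theorem R_small {s t : ℝ} (hs : 0 ≤ s) (hs1 : s ≤ 1) (ht1 : t ≤ 1) (ht : 1 - 1 / d ≤ t) :
    R d s t ≤ (1 - c / 2) ^ d := by
  apply pow_le_pow_left₀ (by linarith)
  have := hg.half_le
  linarith

theorem Low.map {a : ℤ → ℝ} (ha : Low d a) : Low d (T d a) where
  mem := T_mem ha.mem
  left i hi := by
    have h1 : c ≤ R d (a (i - 1)) (a i) := by
      apply c_le_R hg
      have h1 := ha.left (i - 1) (by omega)
      have h2 := ha.left i hi
      have h3 : 1 / (d : ℝ) ≤ 2 / d := by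
        apply div_le_div_of_nonneg_right _ hg.d_pos.le
        norm_num
      linarith
    have h2 := R_nonneg (d := d) (ha.mem i).2 (ha.mem (i + 1)).2
    have h3 := R_le_one (d := d) (ha.mem (i - 1)).1 (ha.mem (i - 1)).2 (ha.mem i).1 (ha.mem i).2
    have h4 := R_le_one (d := d) (ha.mem i).1 (ha.mem i).2 (ha.mem (i + 1)).1 (ha.mem (i + 1)).2
    refine le_trans (pow_le_pow_left₀ (by linarith) ?_ _) hg.pow_small'
    linarith
  right i hi := by
    have h1 : R d (a (i - 1)) (a i) ≤ (1 - c / 2) ^ d :=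
      R_small hg (ha.mem _).1 (ha.mem _).2 (ha.mem _).2 (ha.right i hi)
    have h2 : R d (a i) (a (i + 1)) ≤ (1 - c / 2) ^ d :=
      R_small hg (ha.mem _).1 (ha.mem _).2 (ha.mem _).2 (ha.right (i + 1) (by omega))
    have h3 := R_nonneg (d := d) (ha.mem (i - 1)).2 (ha.mem i).2
    have h4 := R_nonneg (d := d) (ha.mem i).2 (ha.mem (i + 1)).2
    exact hg.bernoulli (by linarith)

theorem Low.iter {a : ℤ → ℝ} (ha : Low d a) (n : ℕ) : Low d ((T d)^[n] a) := by
  induction n with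
  | zero => exact ha
  | succ n ih => rw [Function.iterate_succ_apply']; exact Low.map hg ih

/-- Lipschitz bound for `R`. -/
theorem R_lip {s t s' t' M D : ℝ} (hd : 1 ≤ d) (hs : s ≤ 1) (ht : t ≤ 1)
    (hs' : s' ≤ 1) (ht' : t' ≤ 1) (h1 : 1 - (s + t) / 2 ≤ M) (h2 : 1 - (s' + t') / 2 ≤ M)
    (hM : 0 ≤ M) (hds : |s - s'| ≤ D) (hdt : |t - t'| ≤ D) :
    |R d s t - R d s' t'| ≤ d * M ^ (d - 1) * D := by
  unfold R
  refine (abs_pow_sub_pow hd (by linarith) (by linarith) h1 h2).trans ?_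
  have h3 : |1 - (s + t) / 2 - (1 - (s' + t') / 2)| ≤ D := by
    rw [abs_le] at hds hdt ⊢
    constructor <;> linarith [hds.1, hds.2, hdt.1, hdt.2]
  gcongr

theorem T_contract {a b : ℤ → ℝ} (ha : Low d a) (hb : Low d b) {D : ℝ}
    (h : ∀ i, |a i - b i| ≤ D) (i : ℤ) : |T d a i - T d b i| ≤ D / 2 := by
  have hd : 1 ≤ d := le_trans (by norm_num) hg.four_le
  have hD : 0 ≤ D := (abs_nonneg _).trans (h 0)
  have hdpos := hg.d_pos
  have hth := hg.theta_nonneg
  have hsm := hg.small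
  have ra0 := R_nonneg (d := d) (ha.mem (i - 1)).2 (ha.mem i).2
  have ra1 := R_nonneg (d := d) (ha.mem i).2 (ha.mem (i + 1)).2
  have rb0 := R_nonneg (d := d) (hb.mem (i - 1)).2 (hb.mem i).2
  have rb1 := R_nonneg (d := d) (hb.mem i).2 (hb.mem (i + 1)).2
  have ra0' := R_le_one (d := d) (ha.mem (i - 1)).1 (ha.mem (i - 1)).2 (ha.mem i).1 (ha.mem i).2
  have ra1' := R_le_one (d := d) (ha.mem i).1 (ha.mem i).2 (ha.mem (i + 1)).1 (ha.mem (i + 1)).2
  have rb0' := R_le_one (d := d) (hb.mem (i - 1)).1 (hb.mem (i - 1)).2 (hb.mem i).1 (hb.mem i).2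
  have rb1' := R_le_one (d := d) (hb.mem i).1 (hb.mem i).2 (hb.mem (i + 1)).1 (hb.mem (i + 1)).2
  have hkey : (d : ℝ) * (1 - c / 2) ^ (d - 1) * (d * D) ≤ D / 2 := by
    have h1 : (d : ℝ) * (1 - c / 2) ^ (d - 1) * (d * D) =
        ((d : ℝ) ^ 2 * (1 - c / 2) ^ (d - 1)) * D := by ring
    rw [h1]
    calc ((d : ℝ) ^ 2 * (1 - c / 2) ^ (d - 1)) * D ≤ 1 / 2 * D :=
          mul_le_mul_of_nonneg_right hsm hD
      _ = D / 2 := by ring
  rcases lt_or_ge i 0 with hi | hi
  · -- both values are small powers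
    have hRa : c ≤ R d (a (i - 1)) (a i) := by
      apply c_le_R hg
      have h1 := ha.left (i - 1) (by omega)
      have h2 := ha.left i hi
      have h3 : 1 / (d : ℝ) ≤ 2 / d := by
        apply div_le_div_of_nonneg_right _ hg.d_pos.le
        norm_num
      linarith
    have hRb : c ≤ R d (b (i - 1)) (b i) := by
      apply c_le_R hg
      have h1 := hb.left (i - 1) (by omega)
      have h2 := hb.left i hi
      have h3 : 1 / (d : ℝ) ≤ 2 / d := by
        apply div_le_div_of_nonneg_right _ hg.d_pos.le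
        norm_num
      linarith
    have l1 : |R d (a (i - 1)) (a i) - R d (b (i - 1)) (b i)| ≤ d * 1 ^ (d - 1) * D :=
      R_lip hg hd (ha.mem _).2 (ha.mem _).2 (hb.mem _).2 (hb.mem _).2
        (by linarith [(ha.mem (i - 1)).1, (ha.mem i).1])
        (by linarith [(hb.mem (i - 1)).1, (hb.mem i).1]) zero_le_one (h _) (h _)
    have l2 : |R d (a i) (a (i + 1)) - R d (b i) (b (i + 1))| ≤ d * 1 ^ (d - 1) * D :=
      R_lip hg hd (ha.mem _).2 (ha.mem _).2 (hb.mem _).2 (hb.mem _).2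
        (by linarith [(ha.mem (i + 1)).1, (ha.mem i).1])
        (by linarith [(hb.mem (i + 1)).1, (hb.mem i).1]) zero_le_one (h _) (h _)
    rw [one_pow, mul_one] at l1 l2
    unfold T
    refine (abs_pow_sub_pow (M := 1 - c / 2) hd (by linarith) (by linarith) (by linarith)
      (by linarith)).trans (le_trans ?_ hkey)
    have h3 : |1 - (R d (a (i - 1)) (a i) + R d (a i) (a (i + 1))) / 2 -
        (1 - (R d (b (i - 1)) (b i) + R d (b i) (b (i + 1))) / 2)| ≤ d * D := by
      rw [abs_le] at l1 l2 ⊢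
      constructor <;> linarith [l1.1, l1.2, l2.1, l2.2]
    gcongr
  · have hm := hg.half_le
    have l1 : |R d (a (i - 1)) (a i) - R d (b (i - 1)) (b i)| ≤
        d * (1 - c / 2) ^ (d - 1) * D := by
      apply R_lip hg hd (ha.mem _).2 (ha.mem _).2 (hb.mem _).2 (hb.mem _).2 _ _ hth (h _) (h _)
      · linarith [(ha.mem (i - 1)).1, ha.right i hi]
      · linarith [(hb.mem (i - 1)).1, hb.right i hi]
    have l2 : |R d (a i) (a (i + 1)) - R d (b i) (b (i + 1))| ≤
        d * (1 - c / 2) ^ (d - 1) * D := by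
      apply R_lip hg hd (ha.mem _).2 (ha.mem _).2 (hb.mem _).2 (hb.mem _).2 _ _ hth (h _) (h _)
      · linarith [(ha.mem (i + 1)).1, ha.right i hi]
      · linarith [(hb.mem (i + 1)).1, hb.right i hi]
    unfold T
    refine (abs_pow_sub_pow (M := 1) hd (by linarith) (by linarith) (by linarith)
      (by linarith)).trans (le_trans ?_ hkey)
    have h3 : |1 - (R d (a (i - 1)) (a i) + R d (a i) (a (i + 1))) / 2 -
        (1 - (R d (b (i - 1)) (b i) + R d (b i) (b (i + 1))) / 2)| ≤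
          d * (1 - c / 2) ^ (d - 1) * D := by
      rw [abs_le] at l1 l2 ⊢
      constructor <;> linarith [l1.1, l1.2, l2.1, l2.2]
    rw [one_pow, mul_one]
    calc (d : ℝ) * |1 - (R d (a (i - 1)) (a i) + R d (a i) (a (i + 1))) / 2 -
        (1 - (R d (b (i - 1)) (b i) + R d (b i) (b (i + 1))) / 2)|
        ≤ d * (d * (1 - c / 2) ^ (d - 1) * D) := by gcongr
      _ = _ := by ring

theorem iter_contract {a b : ℤ → ℝ} (ha : Low d a) (hb : Low d b) (n : ℕ) (i : ℤ) :
    |(T d)^[n] a i - (T d)^[n] b i| ≤ (1 / 2) ^ n := by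
  induction n generalizing i with
  | zero =>
    simp only [Function.iterate_zero, id, pow_zero]
    rw [abs_le]
    constructor <;> linarith [(ha.mem i).1, (ha.mem i).2, (hb.mem i).1, (hb.mem i).2]
  | succ n ih =>
    rw [Function.iterate_succ_apply', Function.iterate_succ_apply']
    refine (T_contract hg (Low.iter hg ha n) (Low.iter hg hb n) ih i).trans (le_of_eq ?_)
    rw [pow_succ]
    ring

end

end Pool.Agent.Lib.MP_023911_pr
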